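import Pool.Agent.helper64.D2.SpecF

set_option autoImplicit false

open Filter Topology
open scoped commutatorElement

namespace Pool.Agent.helper64.D2

/-- The part of `g - id` in one period. -/
noncomputable def CHT_Y (G : ℝ → ℝ) : ℝ → ℝ := fun y =>
  open Classical in if y ∈ Set.Icc (35 / 100 : ℝ) (37 / 100) then G y - y else 0

theorem CHT_out (G : ℝ → ℝ) (y : ℝ) (hy : y ∉ Set.Icc (35 / 100 : ℝ) (37 / 100)) : CHT_Y G y = 0 := by
  unfold CHT_Y
  rw [if_neg hy]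

theorem CHT_shift (y : ℝ) (hy : y ∈ Set.Ioo (-(63 / 100) : ℝ) (135 / 100)) (hy2 : y ∉ Set.Icc (35 / 100 : ℝ) (37 / 100))
    (n : ℤ) : y + n ∉ Set.Icc (35 / 100 : ℝ) (37 / 100) := by
  intro h
  obtain ⟨h1, h2⟩ := hy
  obtain ⟨h3, h4⟩ := h
  rcases lt_trichotomy n 0 with hn | hn | hn
  · have : (n : ℝ) ≤ -1 := by exact_mod_cast Int.le_sub_one_of_lt hn
    linarith
  · rw [hn, Int.cast_zero, add_zero] at h3 h4
    exact hy2 ⟨h3, h4⟩
  · have : (1 : ℝ) ≤ (n : ℝ) := by exact_mod_cast hn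
    linarith

theorem CHT_in (g : CircleDeg1Liftˣ) (hg : SIn g (35 / 100) (37 / 100)) (y : ℝ)
    (hy : y ∈ Set.Ioo (-(63 / 100) : ℝ) (135 / 100)) : CHT_Y (gg g) y = gg g y - y := by
  by_cases h : y ∈ Set.Icc (35 / 100 : ℝ) (37 / 100)
  · unfold CHT_Y
    rw [if_pos h]
  · rw [CHT_out _ _ h, hg y (CHT_shift y hy h), sub_self]

theorem CHT_evin (g : CircleDeg1Liftˣ) (hg : SIn g (35 / 100) (37 / 100)) (y : ℝ)
    (hy : y ∈ Set.Ioo (-(63 / 100) : ℝ) (135 / 100)) : CHT_Y (gg g) =ᶠ[𝓝 y] fun z => gg g z - z := by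
  filter_upwards [isOpen_Ioo.mem_nhds hy] with z hz
  exact CHT_in g hg z hz

theorem CHT_evout (G : ℝ → ℝ) (y : ℝ) (hy : y ∉ Set.Icc (35 / 100 : ℝ) (37 / 100)) :
    CHT_Y G =ᶠ[𝓝 y] fun _ => (0 : ℝ) := by
  filter_upwards [isClosed_Icc.isOpen_compl.mem_nhds hy] with z hz
  exact CHT_out G z hz

theorem CHT_cd (g : CircleDeg1Liftˣ) (hg : SIn g (35 / 100) (37 / 100)) (hC : ContDiff ℝ 2 (gg g)) :
    ContDiff ℝ 2 (CHT_Y (gg g)) := by
  rw [contDiff_iff_contDiffAt]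
  intro y
  by_cases hy : y ∈ Set.Icc (35 / 100 : ℝ) (37 / 100)
  · have h1 : y ∈ Set.Ioo (-(63 / 100) : ℝ) (135 / 100) := ⟨by linarith [hy.1], by linarith [hy.2]⟩
    exact (hC.sub contDiff_id).contDiffAt.congr_of_eventuallyEq (CHT_evin g hg y h1)
  · exact contDiffAt_const.congr_of_eventuallyEq (CHT_evout (gg g) y hy)

theorem CHT_d2in (g : CircleDeg1Liftˣ) (hg : SIn g (35 / 100) (37 / 100)) (hC : ContDiff ℝ 2 (gg g)) (y : ℝ)
    (hy : y ∈ Set.Ioo (-(63 / 100) : ℝ) (135 / 100)) : d2 (CHT_Y (gg g)) y = d2 (gg g) y := by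
  have h1 := (CHT_evin g hg y hy).deriv.deriv_eq
  have h2 : deriv (fun z => gg g z - z) = fun z => deriv (gg g) z - 1 := by
    funext z
    exact (((hC.differentiable (by norm_num)) z).hasDerivAt.sub (hasDerivAt_id z)).deriv
  unfold d2
  rw [h1, h2]
  exact deriv_sub_const 1

theorem CHT_d2out (G : ℝ → ℝ) (y : ℝ) (hy : y ∉ Set.Icc (35 / 100 : ℝ) (37 / 100)) : d2 (CHT_Y G) y = 0 := by
  have h1 := (CHT_evout G y hy).deriv.deriv_eq
  unfold d2
  rw [h1]
  simp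

theorem CHT_ML (g : CircleDeg1Liftˣ) (hg : SIn g (35 / 100) (37 / 100)) (hC : ContDiff ℝ 2 (gg g))
    (hM : ML (d2 (gg g))) : ML (d2 (CHT_Y (gg g))) := by
  intro e he
  obtain ⟨t0, ht0, h⟩ := hM e he
  refine ⟨min t0 (1 / 10), lt_min ht0 (by norm_num), ?_⟩
  intro t ht htt x y hxy
  have h1 : t < t0 := lt_of_lt_of_le htt (min_le_left _ _)
  have h2 : t < 1 / 10 := lt_of_lt_of_le htt (min_le_right _ _)
  obtain ⟨h3, h4⟩ := abs_le.1 hxy
  by_cases hx : x ∈ Set.Ioo (-(63 / 100) : ℝ) (135 / 100)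
  · by_cases hy : y ∈ Set.Ioo (-(63 / 100) : ℝ) (135 / 100)
    · rw [CHT_d2in g hg hC x hx, CHT_d2in g hg hC y hy]
      exact h t ht h1 x y hxy
    · have hx' : x ∉ Set.Icc (35 / 100 : ℝ) (37 / 100) := by
        intro hh
        exact hy ⟨by linarith [hh.1], by linarith [hh.2]⟩
      have hy' : y ∉ Set.Icc (35 / 100 : ℝ) (37 / 100) := by
        intro hh
        exact hy ⟨by linarith [hh.1], by linarith [hh.2]⟩
      rw [CHT_d2out _ x hx', CHT_d2out _ y hy']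
      simpa using he.le
  · have hx' : x ∉ Set.Icc (35 / 100 : ℝ) (37 / 100) := by
      intro hh
      exact hx ⟨by linarith [hh.1], by linarith [hh.2]⟩
    have hy' : y ∉ Set.Icc (35 / 100 : ℝ) (37 / 100) := by
      intro hh
      exact hx ⟨by linarith [hh.1], by linarith [hh.2]⟩
    rw [CHT_d2out _ x hx', CHT_d2out _ y hy']
    simpa using he.le

theorem CHT_uu (y : ℝ) (hy : y ∈ Set.Icc (35 / 100 : ℝ) (37 / 100)) : ⌊uu y⌋₊ = 2 := by
  have h1 : uu y = 1 / (1 - y) ^ 2 := rfl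
  have h2 : 0 < (1 - y) ^ 2 := by
    have : 0 < 1 - y := by linarith [hy.2]
    positivity
  have hu : (2 : ℝ) ≤ uu y ∧ uu y < 3 := by
    rw [h1]
    constructor
    · rw [le_div_iff₀ h2]
      nlinarith [hy.1, hy.2]
    · rw [div_lt_iff₀ h2]
      nlinarith [hy.1, hy.2]
  rw [Nat.floor_eq_iff (by linarith)]
  exact ⟨by exact_mod_cast hu.1, by norm_num; linarith [hu.2]⟩

theorem CHT (hGGB : GGB_stmt) (hCHA : CHA_stmt) (hDIF : DIF_stmt) (hBAS : BAS_stmt) : CHT_stmt := by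
  intro e0 he0
  obtain ⟨hext, -, -, -, hint, hmono, -, -⟩ := hGGB
  refine ⟨min (e0 / 20) (1 / 100), lt_min (by positivity) (by norm_num), ?_⟩
  set ε : ℝ := min (e0 / 20) (1 / 100) with hε
  have hε0 : 0 < ε := lt_min (by positivity) (by norm_num)
  have hε1 : 20 * ε ≤ e0 := by
    have := min_le_left (e0 / 20) (1 / 100)
    linarith
  have hε2 : ε ≤ 1 / 100 := min_le_right _ _
  intro g hg hS hb
  have hC : ContDiff ℝ 2 (gg g) := hg.1
  obtain ⟨X, hX, hX0, hXe, hXb, hXM⟩ := hCHA (CHT_Y (gg g)) ε (CHT_cd g hS hC) (fun y hy => CHT_out _ y hy)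
    (fun y => by
      by_cases hy : y ∈ Set.Icc (35 / 100 : ℝ) (37 / 100)
      · rw [CHT_d2in g hS hC y ⟨by linarith [hy.1], by linarith [hy.2]⟩]
        exact hb y
      · rw [CHT_d2out _ y hy, abs_zero]
        exact hε0.le) hε0.le (by linarith)
  have hX1 := (hBAS X (34 / 100) (56 / 100) (20 * ε) hX hX0 hXb (by norm_num)).1
  obtain ⟨f, hf⟩ := hDIF X hX (fun x hx => hX0 x (fun h => hx ⟨by linarith [h.1], by linarith [h.2]⟩))
    (fun x => (hX1 x).trans (by linarith))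
  refine ⟨f, X, hf, hX, hX0, fun x => (hXb x).trans hε1, fun hM => hXM (CHT_ML g hS hC hM), ?_⟩
  apply hext
  intro x
  show thf (Pi.mulSingle 2 f) x = gg g x
  have hfr : Int.fract x ∈ Set.Ico (0 : ℝ) 1 := ⟨Int.fract_nonneg x, Int.fract_lt_one x⟩
  have hgx : gg g x = gg g (Int.fract x) + (⌊x⌋ : ℝ) := by
    rw [← hint g (Int.fract x) ⌊x⌋, Int.fract_add_floor]
  rw [hgx]
  unfold thf
  rw [add_comm]
  congr 1
  generalize Int.fract x = y at hfr
  have hyI : y ∈ Set.Ioo (-(63 / 100) : ℝ) (135 / 100) := ⟨by linarith [hfr.1], by linarith [hfr.2]⟩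
  have hfix : ∀ z : ℝ, z ∈ Set.Ioo (-(63 / 100) : ℝ) (135 / 100) → z ∉ Set.Icc (35 / 100 : ℝ) (37 / 100) → gg g z = z :=
    fun z hz hz2 => hS z (CHT_shift z hz hz2)
  by_cases hfl : ⌊uu y⌋₊ = 2
  · have hu1 := Nat.floor_le (show (0 : ℝ) ≤ uu y by linarith [uu_ge y hfr])
    have hu2 := Nat.lt_floor_add_one (uu y)
    rw [hfl] at hu1 hu2
    norm_num at hu1 hu2
    have hslot : slot (Pi.mulSingle 2 f) (uu y) = uu (gg g y) := by
      unfold slot
      rw [hfl, Pi.mulSingle_eq_same]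
      have h1 := hf (uu y - ((2 : ℕ) : ℝ))
      rw [h1]
      have h2 := hXe (uu y - 2) ⟨by linarith, by linarith⟩
      rw [show (2 : ℝ) + (uu y - 2) = uu y by ring, kk_uu y hfr, CHT_in g hS y hyI,
        show y + (gg g y - y) = gg g y by ring] at h2
      rw [← h2]
      push_cast
      ring
    rw [hslot]
    apply kk_uu
    have h0 : gg g 0 = 0 := hfix 0 ⟨by norm_num, by norm_num⟩ (fun h => by linarith [h.1])
    have h1 : gg g 1 = 1 := hfix 1 ⟨by norm_num, by norm_num⟩ (fun h => by linarith [h.2])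
    constructor
    · rw [← h0]
      exact (hmono g).monotone hfr.1
    · rw [← h1]
      exact hmono g hfr.2
  · have hy2 : y ∉ Set.Icc (35 / 100 : ℝ) (37 / 100) := fun h => hfl (CHT_uu y h)
    have hslot : slot (Pi.mulSingle 2 f) (uu y) = uu y := by
      unfold slot
      rw [Pi.mulSingle_eq_of_ne hfl, ev_one]
      ring
    rw [hslot, kk_uu y hfr, hfix y hyI hy2]

end Pool.Agent.helper64.D2
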