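import Pool.Agent.helper64.D2.SpecC

set_option autoImplicit false

open Filter Topology
open scoped commutatorElement

namespace Pool.Agent.helper64.D2

theorem LW1_d1 (X : ℝ → ℝ) (hX : ContDiff ℝ 2 X) (x : ℝ) : HasDerivAt X (deriv X x) x :=
  ((hX.differentiable (by norm_num)) x).hasDerivAt

theorem LW1_c1 (X : ℝ → ℝ) (hX : ContDiff ℝ 2 X) : ContDiff ℝ 1 (deriv X) := by
  have h : ContDiff ℝ (1 + 1) X := by
    have e : (1 + 1 : WithTop ℕ∞) = 2 := by norm_num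
    rw [e]
    exact hX
  exact (contDiff_succ_iff_deriv.1 h).2.2

theorem LW1_d2 (X : ℝ → ℝ) (hX : ContDiff ℝ 2 X) (x : ℝ) : HasDerivAt (deriv X) (d2 X x) x :=
  (((LW1_c1 X hX).differentiable (by norm_num)) x).hasDerivAt

theorem LW1_lip (f f' : ℝ → ℝ) (K : ℝ) (hf : ∀ x, HasDerivAt f (f' x) x) (hK : ∀ x, |f' x| ≤ K) (x y : ℝ) :
    |f x - f y| ≤ K * |x - y| := by
  have h := Convex.norm_image_sub_le_of_norm_hasDerivWithin_le (f := f) (f' := f') (s := Set.univ) (C := K)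
    (x := y) (y := x) (fun z _ => (hf z).hasDerivWithinAt) (fun z _ => hK z) convex_univ (Set.mem_univ _)
    (Set.mem_univ _)
  simpa [Real.norm_eq_abs] using h

theorem LW1_quo (f f' : ℝ → ℝ) (K θ : ℝ) (hf : ∀ x, HasDerivAt f (f' x) x) (hK : ∀ x, |f' x| ≤ K) (hθ : 0 < θ)
    (z : ℝ) : |(f z - f (z - θ)) / θ| ≤ K := by
  have h := LW1_lip f f' K hf hK z (z - θ)
  rw [show z - (z - θ) = θ by ring, abs_of_pos hθ] at h
  rw [abs_div, abs_of_pos hθ, div_le_iff₀ hθ]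
  exact h

theorem LW1_tay (f f' : ℝ → ℝ) (M θ : ℝ) (hf : ∀ x, HasDerivAt f (f' x) x)
    (hL : ∀ x y, |f' x - f' y| ≤ M * |x - y|) (hM : 0 ≤ M) (hθ : 0 < θ) (z : ℝ) :
    |(f z - f (z - θ)) / θ - f' z| ≤ M * θ := by
  have hd : ∀ s, HasDerivAt (fun s => f s - f' z * s) (f' s - f' z * 1) s := fun s =>
    (hf s).sub ((hasDerivAt_id s).const_mul (f' z))
  have h := Convex.norm_image_sub_le_of_norm_hasDerivWithin_le (f := fun s => f s - f' z * s)
    (f' := fun s => f' s - f' z * 1) (s := Set.Icc (z - θ) z) (C := M * θ) (x := z - θ) (y := z)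
    (fun s _ => (hd s).hasDerivWithinAt)
    (fun s hs => by
      rw [Real.norm_eq_abs, mul_one]
      refine (hL s z).trans (mul_le_mul_of_nonneg_left ?_ hM)
      rw [abs_le]
      constructor <;> linarith [hs.1, hs.2])
    (convex_Icc _ _) (Set.left_mem_Icc.2 (by linarith)) (Set.right_mem_Icc.2 (by linarith))
  rw [Real.norm_eq_abs, Real.norm_eq_abs, show z - (z - θ) = θ by ring, abs_of_pos hθ] at h
  have e : (f z - f (z - θ)) / θ - f' z = (f z - f' z * z - (f (z - θ) - f' z * (z - θ))) / θ := by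
    field_simp
    ring
  rw [e, abs_div, abs_of_pos hθ, div_le_iff₀ hθ]
  exact h

theorem LW1_edge (X : ℝ → ℝ) (p q : ℝ) (hc : Continuous X) (h : ∀ x, x ∉ Set.Icc p q → X x = 0) :
    X p = 0 ∧ X q = 0 := by
  have hcl : IsClosed {x : ℝ | X x = 0} := isClosed_eq hc continuous_const
  constructor
  · have h1 : Set.Iio p ⊆ {x : ℝ | X x = 0} := fun x hx => h x (fun hh => absurd hh.1 (not_le.2 hx))
    have h2 := hcl.closure_subset_iff.2 h1
    rw [closure_Iio] at h2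
    exact h2 (le_refl p)
  · have h1 : Set.Ioi q ⊆ {x : ℝ | X x = 0} := fun x hx => h x (fun hh => absurd hh.2 (not_le.2 hx))
    have h2 := hcl.closure_subset_iff.2 h1
    rw [closure_Ioi] at h2
    exact h2 (le_refl q)

theorem LW1_com (T b : DD) (B : ℝ → ℝ) (p q θ : ℝ) (hb : Rep b B) (hc : Continuous B)
    (hB : ∀ x, x ∉ Set.Icc p q → B x = 0) (hT : ∀ y ∈ Set.Icc p q, ev T y = y + θ) (x : ℝ) :
    ev ⁅T, b⁆ x = ev b⁻¹ x + B (ev b⁻¹ x - θ) := by
  obtain ⟨hBp, hBq⟩ := LW1_edge B p q hc hB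
  have e : ⁅T, b⁆ = T * b * T⁻¹ * b⁻¹ := commutatorElement_def T b
  rw [e, ev_mul, ev_mul, ev_mul]
  generalize ev b⁻¹ x = y
  by_cases hy : y - θ ∈ Set.Icc p q
  · have h1 : ev T (y - θ) = y := by rw [hT _ hy]; ring
    have h2 : ev T⁻¹ y = y - θ := by
      conv_lhs => rw [← h1]
      exact ev_inv T _
    have hbp : ev b p = p := by rw [hb p, hBp, add_zero]
    have hbq : ev b q = q := by rw [hb q, hBq, add_zero]
    have h3 : ev b (y - θ) ∈ Set.Icc p q := by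
      constructor
      · rw [← hbp]; exact ev_mono b hy.1
      · rw [← hbq]; exact ev_mono b hy.2
    rw [h2, hT _ h3, hb (y - θ)]
    ring
  · have hz : ev T⁻¹ y ∉ Set.Icc p q := by
      intro hz
      have h1 := hT _ hz
      rw [ev_inv'] at h1
      apply hy
      rw [show y - θ = ev T⁻¹ y by linarith]
      exact hz
    rw [hb (ev T⁻¹ y), hB _ hz, add_zero, ev_inv', hB _ hy, add_zero]

theorem LW1_n0 (s e : ℝ) (hs : |s| ≤ e) (he : e ≤ 1 / 100) : |1 / (1 + s) - 1| ≤ 2 * e := by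
  obtain ⟨h1, h2⟩ := abs_le.1 hs
  have hD : 99 / 100 ≤ 1 + s := by linarith
  have e1 : 1 / (1 + s) - 1 = -s / (1 + s) := by
    rw [div_sub_one (by linarith : (1 : ℝ) + s ≠ 0)]
    congr 1
    ring
  have he0 : 0 ≤ e := le_trans (abs_nonneg _) hs
  rw [e1, abs_div, abs_neg, abs_of_pos (by linarith : 0 < 1 + s), div_le_iff₀ (by linarith)]
  nlinarith

theorem LW1_v (V e : ℝ) (hV : |V - 1| ≤ 2 * e) (he : e ≤ 1 / 100) : |V| ≤ 51 / 50 := by
  obtain ⟨h1, h2⟩ := abs_le.1 hV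
  rw [abs_le]
  constructor <;> linarith

theorem LW1_n1 (P P' X q1 V W a e m n : ℝ) (hP' : |P'| ≤ a) (h1 : |P - P'| ≤ m) (h2 : |P' - X| ≤ n)
    (hq1 : |q1| ≤ a) (hV : |V - 1| ≤ 2 * e) (hW : |W| ≤ 2 * e) (he : e ≤ 1 / 100) :
    |P * V * V + q1 * W - X| ≤ 2 * m + n + 7 * a * e := by
  have hv := LW1_v V e hV he
  have ha : 0 ≤ a := le_trans (abs_nonneg _) hP'
  have he0 : 0 ≤ e := by linarith [le_trans (abs_nonneg _) hW]
  have hm : 0 ≤ m := le_trans (abs_nonneg _) h1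
  have e1 : P * V * V + q1 * W - X = (P - P') * (V * V) + P' * ((V - 1) * (V + 1)) + (P' - X) + q1 * W := by
    ring
  have t1 : |(P - P') * (V * V)| ≤ m * (51 / 50 * (51 / 50)) := by
    rw [abs_mul, abs_mul]
    gcongr
  have hv1 : |V + 1| ≤ 101 / 50 := by
    obtain ⟨g1, g2⟩ := abs_le.1 hV
    rw [abs_le]
    constructor <;> linarith
  have t2 : |P' * ((V - 1) * (V + 1))| ≤ a * (2 * e * (101 / 50)) := by
    rw [abs_mul, abs_mul]
    gcongr
  have t3 : |q1 * W| ≤ a * (2 * e) := by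
    rw [abs_mul]
    gcongr
  rw [e1]
  have s1 := abs_add_le ((P - P') * (V * V) + P' * ((V - 1) * (V + 1)) + (P' - X)) (q1 * W)
  have s2 := abs_add_le ((P - P') * (V * V) + P' * ((V - 1) * (V + 1))) (P' - X)
  have s3 := abs_add_le ((P - P') * (V * V)) (P' * ((V - 1) * (V + 1)))
  nlinarith [mul_nonneg ha he0]

theorem LW1_n2 (P P' q1 q1' V V' W W' a e M δ : ℝ) (hP' : |P'| ≤ a) (hq1' : |q1'| ≤ a)
    (hV : |V - 1| ≤ 2 * e) (hV' : |V' - 1| ≤ 2 * e) (hW : |W| ≤ 2 * e) (he : e ≤ 1 / 100) (hM : 0 ≤ M) (hδ : 0 ≤ δ)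
    (hPP : |P - P'| ≤ M * (51 / 50 * δ)) (hqq : |q1 - q1'| ≤ a * (51 / 50 * δ)) (hVV : |V - V'| ≤ 2 * e * δ)
    (hWW : |W - W'| ≤ 2 * e * δ) :
    |(P * V * V + q1 * W) - (P' * V' * V' + q1' * W')| ≤ (2 * M + a) * δ := by
  have hv := LW1_v V e hV he
  have hv' := LW1_v V' e hV' he
  have ha : 0 ≤ a := le_trans (abs_nonneg _) hP'
  have he0 : 0 ≤ e := by linarith [le_trans (abs_nonneg _) hW]
  have e1 : (P * V * V + q1 * W) - (P' * V' * V' + q1' * W') =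
      (P - P') * (V * V) + P' * ((V - V') * (V + V')) + (q1 - q1') * W + q1' * (W - W') := by ring
  have t1 : |(P - P') * (V * V)| ≤ M * (51 / 50 * δ) * (51 / 50 * (51 / 50)) := by
    rw [abs_mul, abs_mul]
    gcongr
  have hvv : |V + V'| ≤ 51 / 25 := (abs_add_le _ _).trans (by linarith)
  have t2 : |P' * ((V - V') * (V + V'))| ≤ a * (2 * e * δ * (51 / 25)) := by
    rw [abs_mul, abs_mul]
    gcongr
  have t3 : |(q1 - q1') * W| ≤ a * (51 / 50 * δ) * (2 * e) := by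
    rw [abs_mul]
    gcongr
  have t4 : |q1' * (W - W')| ≤ a * (2 * e * δ) := by
    rw [abs_mul]
    gcongr
  rw [e1]
  have s1 := abs_add_le ((P - P') * (V * V) + P' * ((V - V') * (V + V')) + (q1 - q1') * W) (q1' * (W - W'))
  have s2 := abs_add_le ((P - P') * (V * V) + P' * ((V - V') * (V + V'))) ((q1 - q1') * W)
  have s3 := abs_add_le ((P - P') * (V * V)) (P' * ((V - V') * (V + V')))
  have had : 0 ≤ a * δ := mul_nonneg ha hδ
  have hMd : 0 ≤ M * δ := mul_nonneg hM hδ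
  have hz : a * δ * e ≤ a * δ * (1 / 100) := mul_le_mul_of_nonneg_left he had
  have f2 : a * (2 * e * δ * (51 / 25)) = 102 / 25 * (a * δ * e) := by ring
  have f3 : a * (51 / 50 * δ) * (2 * e) = 51 / 25 * (a * δ * e) := by ring
  have f4 : a * (2 * e * δ) = 2 * (a * δ * e) := by ring
  have f1 : M * (51 / 50 * δ) * (51 / 50 * (51 / 50)) = 132651 / 125000 * (M * δ) := by ring
  have f5 : (2 * M + a) * δ = 2 * (M * δ) + a * δ := by ring
  rw [f1] at t1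
  rw [f2] at t2
  rw [f3] at t3
  rw [f4] at t4
  rw [f5]
  linarith

theorem LW1_n3 (β β' V V' e δ : ℝ) (hβ' : |β'| ≤ e) (hV : |V - 1| ≤ 2 * e) (hV' : |V' - 1| ≤ 2 * e)
    (he : e ≤ 1 / 100) (hδ : 0 ≤ δ) (hββ : |β - β'| ≤ e * (51 / 50 * δ)) (hVV : |V - V'| ≤ 2 * e * δ) :
    |-(β * V ^ 3) - -(β' * V' ^ 3)| ≤ 2 * e * δ := by
  have hv := LW1_v V e hV he
  have hv' := LW1_v V' e hV' he
  have he0 : 0 ≤ e := le_trans (abs_nonneg _) hβ'
  have e1 : -(β * V ^ 3) - -(β' * V' ^ 3) =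
      -((β - β') * V ^ 3) - β' * ((V - V') * (V * V + V * V' + V' * V')) := by ring
  have t1 : |(β - β') * V ^ 3| ≤ e * (51 / 50 * δ) * (51 / 50) ^ 3 := by
    rw [abs_mul, abs_pow]
    gcongr
  have h3 : |V * V + V * V' + V' * V'| ≤ 51 / 50 * (51 / 50) + 51 / 50 * (51 / 50) + 51 / 50 * (51 / 50) := by
    refine (abs_add_le _ _).trans ?_
    refine (add_le_add (abs_add_le _ _) le_rfl).trans ?_
    rw [abs_mul, abs_mul, abs_mul]
    gcongr
  have t2 : |β' * ((V - V') * (V * V + V * V' + V' * V'))| ≤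
      e * (2 * e * δ * (51 / 50 * (51 / 50) + 51 / 50 * (51 / 50) + 51 / 50 * (51 / 50))) := by
    rw [abs_mul, abs_mul]
    gcongr
  rw [e1]
  have s1 := abs_sub (-((β - β') * V ^ 3)) (β' * ((V - V') * (V * V + V * V' + V' * V')))
  rw [abs_neg] at s1
  have hed : 0 ≤ e * δ := mul_nonneg he0 hδ
  have hz : e * δ * e ≤ e * δ * (1 / 100) := mul_le_mul_of_nonneg_left he hed
  have f1 : e * (51 / 50 * δ) * (51 / 50) ^ 3 = (51 / 50) ^ 4 * (e * δ) := by ring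
  have f2 : e * (2 * e * δ * (51 / 50 * (51 / 50) + 51 / 50 * (51 / 50) + 51 / 50 * (51 / 50))) =
      6 * (51 / 50) ^ 2 * (e * δ * e) := by ring
  rw [f1] at t1
  rw [f2] at t2
  have f3 : 2 * e * δ = 2 * (e * δ) := by ring
  rw [f3]
  have f4 : ((51 : ℝ) / 50) ^ 4 * (e * δ) ≤ 11 / 10 * (e * δ) := by
    apply mul_le_mul_of_nonneg_right _ hed
    norm_num
  have f5 : 6 * ((51 : ℝ) / 50) ^ 2 * (e * δ * e) ≤ 7 * (e * δ * e) := by
    apply mul_le_mul_of_nonneg_right _ (mul_nonneg hed he0)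
    norm_num
  linarith

theorem LW1 (hSMA : SMA_stmt) (hDIF : DIF_stmt) (hBAS : BAS_stmt) (hSZC : SZC_stmt) : LW1_stmt := by
  obtain ⟨C0, hC0, hT, -⟩ := hSMA
  intro A hA
  have hA2 : 1 ≤ A ^ 2 := by nlinarith
  have hAA : A ≤ A ^ 2 := by nlinarith
  refine ⟨C0 + 100 * A ^ 2, by linarith, ?_⟩
  intro Y Xi p q θ M hXi hY hYs hX2 hXL hp hpq hq hθ hCθ hM
  set C : ℝ := C0 + 100 * A ^ 2 with hC
  have hC0C : C0 ≤ C := by linarith
  have hAC : 100 * A ^ 2 ≤ C := by linarith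
  have hC0θ : C0 * θ ≤ 1 := (mul_le_mul_of_nonneg_right hC0C hθ.le).trans hCθ
  have hA2θ : 100 * A ^ 2 * θ ≤ 1 := (mul_le_mul_of_nonneg_right hAC hθ.le).trans hCθ
  have hAθ : A * θ ≤ 1 / 100 := by
    have : A * θ ≤ A ^ 2 * θ := mul_le_mul_of_nonneg_right hAA hθ.le
    linarith
  have hAθ0 : 0 ≤ A * θ := mul_nonneg (by linarith) hθ.le
  have ha0 : 0 ≤ A * θ ^ 2 := by positivity
  -- the bounds of `Ξ` and `Y`
  have hXs : ∀ x, x ∉ Set.Icc p q → Xi x = 0 := by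
    intro x hx
    have h1 : Y =ᶠ[𝓝 x] fun _ => (0 : ℝ) := by
      filter_upwards [isClosed_Icc.isOpen_compl.mem_nhds hx] with y hy
      exact hYs y hy
    exact (hY x).unique ((hasDerivAt_const x (0 : ℝ)).congr_of_eventuallyEq h1)
  have hqp1 : q - p ≤ 1 := by linarith
  have hqp0 : 0 ≤ q - p := by linarith
  have hqp2 : (q - p) ^ 2 ≤ 1 := by nlinarith
  obtain ⟨b1, b2, b3, b4⟩ := hBAS Xi p q (A * θ ^ 2) hXi hXs hX2 hpq
  have hX1 : ∀ x, |deriv Xi x| ≤ A * θ ^ 2 := fun x => (b1 x).trans (by nlinarith)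
  have hX0 : ∀ x, |Xi x| ≤ A * θ ^ 2 := fun x => (b2 x).trans (by nlinarith)
  have hYd : deriv Y = Xi := funext fun x => (hY x).deriv
  have hYC : ContDiff ℝ 2 Y := by
    have h : ContDiff ℝ (1 + 1) Y := by
      rw [contDiff_succ_iff_deriv]
      refine ⟨fun x => (hY x).differentiableAt, ?_, ?_⟩
      · intro h
        simp at h
      · rw [hYd]
        exact hXi.of_le (by norm_num)
    have e : (1 + 1 : WithTop ℕ∞) = 2 := by norm_num
    rw [e] at h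
    exact h
  -- the diffeomorphism `b`
  set B : ℝ → ℝ := fun x => -(Y x / θ) with hB
  set B1 : ℝ → ℝ := fun x => -(Xi x / θ) with hB1
  set B2 : ℝ → ℝ := fun x => -(deriv Xi x / θ) with hB2
  have hBC : ContDiff ℝ 2 B := (hYC.div_const θ).neg
  have hBd : ∀ x, HasDerivAt B (B1 x) x := fun x => ((hY x).div_const θ).neg
  have hB1d : ∀ x, HasDerivAt B1 (B2 x) x := fun x => ((LW1_d1 Xi hXi x).div_const θ).neg
  have hdB : deriv B = B1 := funext fun x => (hBd x).deriv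
  have hd2B : ∀ x, d2 B x = B2 x := by
    intro x
    unfold d2
    rw [hdB]
    exact (hB1d x).deriv
  have hquot : ∀ z : ℝ, |z| ≤ A * θ ^ 2 → |-(z / θ)| ≤ A * θ := by
    intro z hz
    rw [abs_neg, abs_div, abs_of_pos hθ, div_le_iff₀ hθ]
    calc |z| ≤ A * θ ^ 2 := hz
      _ = A * θ * θ := by ring
  have hB1b : ∀ x, |B1 x| ≤ A * θ := fun x => hquot _ (hX0 x)
  have hB2b : ∀ x, |B2 x| ≤ A * θ := fun x => hquot _ (hX1 x)
  have hBs : ∀ x, x ∉ Set.Icc p q → B x = 0 := by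
    intro x hx
    show -(Y x / θ) = 0
    rw [hYs x hx]
    simp
  have hBb : ∀ x, |B x| ≤ A * θ := by
    intro x
    have h := (hBAS B p q (A * θ) hBC hBs (fun x => by rw [hd2B]; exact hB2b x) hpq).2.1 x
    exact h.trans (by nlinarith)
  have hB2L : ∀ x y, |B2 x - B2 y| ≤ A * θ * |x - y| := by
    refine LW1_lip B2 (fun x => -(d2 Xi x / θ)) (A * θ) (fun x => ((LW1_d2 Xi hXi x).div_const θ).neg) ?_
    intro x
    exact hquot _ (hX2 x)
  have hB1L : ∀ x y, |B1 x - B1 y| ≤ A * θ * |x - y| := LW1_lip B1 B2 (A * θ) hB1d hB2b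
  obtain ⟨b, hb⟩ := hDIF B hBC (fun x hx => hBs x (fun h => hx ⟨by linarith [h.1], by linarith [h.2]⟩))
    (fun x => by rw [hdB]; linarith [hB1b x])
  have hszb : Sz b (A * θ) := by
    intro x
    rw [(hSZC.1 b B hb).2.2.2 x, hd2B]
    exact hB2b x
  -- the translation
  obtain ⟨T, hT1, hT2⟩ := hT θ (by
    rw [abs_of_pos hθ, le_div_iff₀ (by linarith : 0 < C0)]
    linarith)
  rw [abs_of_pos hθ] at hT2
  -- the inverse
  set y : ℝ → ℝ := ev b⁻¹ with hy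
  have hyC : ContDiff ℝ 2 y := ev_contDiff b⁻¹
  have hyB : ∀ x, y x + B (y x) = x := by
    intro x
    have h1 := hb (ev b⁻¹ x)
    rw [ev_inv'] at h1
    exact h1.symm
  have hyx : ∀ x, |y x - x| ≤ A * θ := by
    intro x
    have h1 : y x - x = -B (y x) := by linarith [hyB x]
    rw [h1, abs_neg]
    exact hBb _
  have hyo : ∀ x, x ∉ Set.Icc p q → y x = x := by
    intro x hx
    have h1 : ev b x = x := by rw [hb x, hBs x hx, add_zero]
    have h2 : ev b⁻¹ (ev b x) = x := ev_inv b x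
    rw [h1] at h2
    exact h2
  set V : ℝ → ℝ := fun x => 1 / (1 + B1 (y x)) with hV
  set W : ℝ → ℝ := fun x => -(B2 (y x) * V x ^ 3) with hW
  have hden : ∀ x, 1 + B1 (y x) ≠ 0 := by
    intro x
    have := (abs_le.1 (hB1b (y x))).1
    intro h
    linarith
  have hyd : ∀ x, HasDerivAt y (V x) x := by
    intro x
    have e1 := LW1_d1 y hyC x
    have e2 : HasDerivAt (fun x => y x + B (y x)) (deriv y x + B1 (y x) * deriv y x) x :=
      e1.add ((hBd (y x)).comp x e1)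
    have e4 : (fun x => y x + B (y x)) = fun x => x := funext hyB
    rw [e4] at e2
    have e5 := e2.unique (hasDerivAt_id x)
    have e7 : deriv y x = V x := by
      show deriv y x = 1 / (1 + B1 (y x))
      rw [eq_div_iff (hden x)]
      linear_combination e5
    rw [← e7]
    exact e1
  have hVd : ∀ x, HasDerivAt V (W x) x := by
    intro x
    have e1 : HasDerivAt (fun x => 1 + B1 (y x)) (B2 (y x) * V x) x :=
      ((hB1d (y x)).comp x (hyd x)).const_add 1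
    have e2 := (hasDerivAt_const x (1 : ℝ)).div e1 (hden x)
    have e3 : (0 * (1 + B1 (y x)) - 1 * (B2 (y x) * V x)) / (1 + B1 (y x)) ^ 2 = W x := by
      show _ = -(B2 (y x) * V x ^ 3)
      have e4 : V x = 1 / (1 + B1 (y x)) := rfl
      rw [e4]
      have := hden x
      field_simp
      ring
    rw [e3] at e2
    exact e2
  have hV1 : ∀ x, |V x - 1| ≤ 2 * (A * θ) := fun x => LW1_n0 _ _ (hB1b (y x)) hAθ
  have hVb : ∀ x, |V x| ≤ 51 / 50 := fun x => LW1_v _ _ (hV1 x) hAθ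
  have hWb : ∀ x, |W x| ≤ 2 * (A * θ) := by
    intro x
    show |-(B2 (y x) * V x ^ 3)| ≤ _
    rw [abs_neg, abs_mul, abs_pow]
    have h1 : |V x| ^ 3 ≤ (51 / 50) ^ 3 := pow_le_pow_left₀ (abs_nonneg _) (hVb x) 3
    calc |B2 (y x)| * |V x| ^ 3 ≤ A * θ * (51 / 50) ^ 3 := by
          have := hB2b (y x)
          gcongr
      _ ≤ A * θ * 2 := mul_le_mul_of_nonneg_left (by norm_num) hAθ0
      _ = 2 * (A * θ) := by ring
  have hyL : ∀ x x', |y x - y x'| ≤ 51 / 50 * |x - x'| := LW1_lip y V _ hyd hVb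
  have hVL : ∀ x x', |V x - V x'| ≤ 2 * (A * θ) * |x - x'| := LW1_lip V W _ hVd hWb
  have hWL : ∀ x x', |W x - W x'| ≤ 2 * (A * θ) * |x - x'| := by
    intro x x'
    exact LW1_n3 (B2 (y x)) (B2 (y x')) (V x) (V x') (A * θ) |x - x'| (hB2b _) (hV1 x) (hV1 x') hAθ
      (abs_nonneg _) ((hB2L _ _).trans (mul_le_mul_of_nonneg_left (hyL x x') hAθ0)) (hVL x x')
  -- the function `Q`
  set Q : ℝ → ℝ := fun z => (Y z - Y (z - θ)) / θ with hQ
  set Q1 : ℝ → ℝ := fun z => (Xi z - Xi (z - θ)) / θ with hQ1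
  set Q2 : ℝ → ℝ := fun z => (deriv Xi z - deriv Xi (z - θ)) / θ with hQ2
  have hsh : ∀ (f f' : ℝ → ℝ), (∀ x, HasDerivAt f (f' x) x) → ∀ x, HasDerivAt (fun z => (f z - f (z - θ)) / θ)
      ((f' x - f' (x - θ)) / θ) x := by
    intro f f' hf x
    have h1 : HasDerivAt (fun z => z - θ) 1 x := (hasDerivAt_id x).sub_const θ
    have h2 : HasDerivAt (fun z => f (z - θ)) (f' (x - θ) * 1) x := (hf (x - θ)).comp x h1
    rw [mul_one] at h2
    exact ((hf x).sub h2).div_const θ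
  have hQd : ∀ z, HasDerivAt Q (Q1 z) z := hsh Y Xi hY
  have hQ1d : ∀ z, HasDerivAt Q1 (Q2 z) z := hsh Xi (deriv Xi) (LW1_d1 Xi hXi)
  have hQ2d : ∀ z, HasDerivAt Q2 ((d2 Xi z - d2 Xi (z - θ)) / θ) z := hsh (deriv Xi) (d2 Xi) (LW1_d2 Xi hXi)
  have hQ1b : ∀ z, |Q1 z| ≤ A * θ ^ 2 := LW1_quo Xi (deriv Xi) _ θ (LW1_d1 Xi hXi) hX1 hθ
  have hQ2b : ∀ z, |Q2 z| ≤ A * θ ^ 2 := LW1_quo (deriv Xi) (d2 Xi) _ θ (LW1_d2 Xi hXi) hX2 hθ
  have hQ3b : ∀ z, |(d2 Xi z - d2 Xi (z - θ)) / θ| ≤ M := by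
    intro z
    rw [abs_div, abs_of_pos hθ, div_le_iff₀ hθ]
    have := hXL z (z - θ)
    rwa [show z - (z - θ) = θ by ring, abs_of_pos hθ] at this
  have hQ2L : ∀ x x', |Q2 x - Q2 x'| ≤ M * |x - x'| := LW1_lip Q2 _ M hQ2d hQ3b
  have hQ1L : ∀ x x', |Q1 x - Q1 x'| ≤ A * θ ^ 2 * |x - x'| := LW1_lip Q1 Q2 _ hQ1d hQ2b
  have hQX : ∀ z, |Q2 z - d2 Xi z| ≤ M * θ := LW1_tay (deriv Xi) (d2 Xi) M θ (LW1_d2 Xi hXi) hXL hM hθ
  have hQC : ContDiff ℝ 2 Q :=
    (hYC.sub (hYC.comp (contDiff_id.sub contDiff_const))).div_const θ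
  -- the commutator
  have hDd : ∀ x, HasDerivAt (fun x => Q (y x)) (Q1 (y x) * V x) x := fun x => (hQd (y x)).comp x (hyd x)
  have hDd' : deriv (fun x => Q (y x)) = fun x => Q1 (y x) * V x := funext fun x => (hDd x).deriv
  have hDdd : ∀ x, d2 (fun x => Q (y x)) x = Q2 (y x) * V x * V x + Q1 (y x) * W x := by
    intro x
    unfold d2
    rw [hDd']
    exact (((hQ1d (y x)).comp x (hyd x)).mul (hVd x)).deriv
  have hest : ∀ x, |d2 (fun x => Q (y x)) x - d2 Xi x| ≤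
      2 * (M * (A * θ)) + M * θ + 7 * (A * θ ^ 2) * (A * θ) := by
    intro x
    rw [hDdd]
    exact LW1_n1 (Q2 (y x)) (Q2 x) (d2 Xi x) (Q1 (y x)) (V x) (W x) (A * θ ^ 2) (A * θ) (M * (A * θ)) (M * θ)
      (hQ2b x) ((hQ2L _ _).trans (mul_le_mul_of_nonneg_left (hyx x) hM)) (hQX x) (hQ1b _) (hV1 x) (hWb x) hAθ
  refine ⟨T, b, fun x => Q (y x), ?_, ⟨hQC.comp hyC, ?_, ?_, ?_⟩, ?_, ?_, ?_⟩
  · intro x
    rw [LW1_com T b B p q θ hb hBC.continuous hBs (fun z hz => hT1 z ⟨by linarith [hz.1], by linarith [hz.2]⟩) x]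
    have h1 := hyB x
    have h2 : Q (y x) = B (y x - θ) - B (y x) := by
      show (Y (y x) - Y (y x - θ)) / θ = -(Y (y x - θ) / θ) - -(Y (y x) / θ)
      ring
    show y x + B (y x - θ) = x + Q (y x)
    rw [h2]
    linarith
  · intro x hx
    have hx1 : x ∉ Set.Icc p q := fun h => hx ⟨h.1, by linarith [h.2]⟩
    have hx2 : x - θ ∉ Set.Icc p q := fun h => hx ⟨by linarith [h.1], by linarith [h.2]⟩
    show (Y (y x) - Y (y x - θ)) / θ = 0
    rw [hyo x hx1, hYs x hx1, hYs _ hx2]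
    simp
  · intro x
    rw [hDdd]
    have h1 := LW1_n1 (Q2 (y x)) (Q2 (y x)) 0 (Q1 (y x)) (V x) (W x) (A * θ ^ 2) (A * θ) 0 (A * θ ^ 2)
      (hQ2b _) (by simp) (by simpa using hQ2b (y x)) (hQ1b _) (hV1 x) (hWb x) hAθ
    rw [sub_zero] at h1
    refine h1.trans ?_
    have h2 : 7 * (A * θ ^ 2) * (A * θ) ≤ 7 * (A * θ ^ 2) * (1 / 100) :=
      mul_le_mul_of_nonneg_left hAθ (by positivity)
    have h3 : A * θ ^ 2 ≤ A ^ 2 * θ ^ 2 := mul_le_mul_of_nonneg_right hAA (by positivity)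
    have h4 : 100 * A ^ 2 * θ ^ 2 ≤ C * θ ^ 2 := mul_le_mul_of_nonneg_right hAC (by positivity)
    nlinarith
  · intro x x'
    rw [hDdd, hDdd]
    have h1 := LW1_n2 (Q2 (y x)) (Q2 (y x')) (Q1 (y x)) (Q1 (y x')) (V x) (V x') (W x) (W x') (A * θ ^ 2) (A * θ) M
      |x - x'| (hQ2b _) (hQ1b _) (hV1 x) (hV1 x') (hWb x) hAθ hM (abs_nonneg _)
      ((hQ2L _ _).trans (mul_le_mul_of_nonneg_left (hyL x x') hM))
      ((hQ1L _ _).trans (mul_le_mul_of_nonneg_left (hyL x x') ha0)) (hVL x x') (hWL x x')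
    refine h1.trans (mul_le_mul_of_nonneg_right ?_ (abs_nonneg _))
    have h3 : A * θ ^ 2 ≤ A ^ 2 * θ ^ 2 := mul_le_mul_of_nonneg_right hAA (by positivity)
    have h4 : 100 * A ^ 2 * θ ^ 2 ≤ C * θ ^ 2 := mul_le_mul_of_nonneg_right hAC (by positivity)
    have h5 : 2 * M ≤ C * M := mul_le_mul_of_nonneg_right (by linarith) hM
    nlinarith
  · intro x
    exact (hT2 x).trans (mul_le_mul_of_nonneg_right hC0C hθ.le)
  · intro x
    refine (hszb x).trans (mul_le_mul_of_nonneg_right ?_ hθ.le)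
    linarith
  · intro x
    refine (hest x).trans ?_
    have h1 : A * (M * θ) ≤ A ^ 2 * (M * θ) := mul_le_mul_of_nonneg_right hAA (by positivity)
    have h2 : 1 * (M * θ) ≤ A ^ 2 * (M * θ) := mul_le_mul_of_nonneg_right hA2 (by positivity)
    have h3 : 100 * A ^ 2 * (θ * (M + θ ^ 2)) ≤ C * (θ * (M + θ ^ 2)) :=
      mul_le_mul_of_nonneg_right hAC (by positivity)
    have h4 : 0 ≤ A ^ 2 * (θ * θ ^ 2) := by positivity
    have h5 : 0 ≤ A ^ 2 * (M * θ) := by positivity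
    nlinarith

end Pool.Agent.helper64.D2
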