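import Pool.Agent.helper64.D2.SpecF

set_option autoImplicit false

open Filter Topology
open scoped commutatorElement

namespace Pool.Agent.helper64.D2

/-- For small `t` the factor is nonnegative. -/
theorem MLA_pos (t : ℝ) (ht : 0 < t) (h : t < Real.exp (-3)) : 0 ≤ Real.log (Real.log (1 / t)) := by
  have h1 : Real.log t < -3 := by
    have := Real.log_lt_log ht h
    rwa [Real.log_exp] at this
  have h2 : Real.log (1 / t) = -Real.log t := by rw [one_div, Real.log_inv]
  rw [h2]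
  exact Real.log_nonneg (by linarith)

theorem MLA_sqrt (t : ℝ) (ht : 0 < t) (h : t < Real.exp (-3)) :
    t ^ 2 * Real.log (Real.log (1 / t)) ^ 3 ≤ 8 * √t := by
  have hs : 0 < √t := Real.sqrt_pos.2 ht
  have hst : √t ^ 2 = t := Real.sq_sqrt ht.le
  have h0 := MLA_pos t ht h
  have h2 : Real.log (1 / t) = 2 * Real.log (1 / √t) := by
    rw [one_div, Real.log_inv, one_div, Real.log_inv, Real.log_sqrt ht.le]
    ring
  have h1 : Real.log t < -3 := by
    have := Real.log_lt_log ht h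
    rwa [Real.log_exp] at this
  have h1' : 0 < Real.log (1 / t) := by
    rw [one_div, Real.log_inv]
    linarith
  have h3 : Real.log (Real.log (1 / t)) ≤ Real.log (1 / t) := by
    have := Real.log_le_sub_one_of_pos h1'
    linarith
  have h4 : Real.log (1 / √t) ≤ 1 / √t := by
    have := Real.log_le_sub_one_of_pos (show 0 < 1 / √t by positivity)
    linarith
  have h5 : Real.log (Real.log (1 / t)) ≤ 2 / √t := by
    calc Real.log (Real.log (1 / t)) ≤ Real.log (1 / t) := h3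
      _ = 2 * Real.log (1 / √t) := h2
      _ ≤ 2 * (1 / √t) := by linarith
      _ = 2 / √t := by ring
  have h6 : Real.log (Real.log (1 / t)) ^ 3 ≤ (2 / √t) ^ 3 := pow_le_pow_left₀ h0 h5 3
  calc t ^ 2 * Real.log (Real.log (1 / t)) ^ 3 ≤ t ^ 2 * (2 / √t) ^ 3 :=
        mul_le_mul_of_nonneg_left h6 (by positivity)
    _ = (√t ^ 2) ^ 2 * (2 / √t) ^ 3 := by rw [hst]
    _ = 8 * √t := by
        field_simp
        norm_num

theorem MLA_1 (u : ℝ → ℝ) (C : ℝ) (hu : ∀ x y, |u x - u y| ≤ C * |x - y|) : ML u := by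
  intro e he
  set K : ℝ := 8 * (C ^ 2 + 1) with hK
  have hK0 : 0 < K := by positivity
  refine ⟨min (Real.exp (-3)) ((e / K) ^ 2), lt_min (Real.exp_pos _) (by positivity), ?_⟩
  intro t ht ht0 x y hxy
  have h1 : t < Real.exp (-3) := lt_of_lt_of_le ht0 (min_le_left _ _)
  have h2 : t < (e / K) ^ 2 := lt_of_lt_of_le ht0 (min_le_right _ _)
  have h3 : √t ≤ e / K := by
    rw [← Real.sqrt_sq (show 0 ≤ e / K by positivity)]
    exact Real.sqrt_le_sqrt h2.le
  have h4 : |u x - u y| ≤ |C| * t := by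
    refine (hu x y).trans ?_
    refine (mul_le_mul_of_nonneg_right (le_abs_self C) (abs_nonneg _)).trans ?_
    exact mul_le_mul_of_nonneg_left hxy (abs_nonneg _)
  have h5 : |u x - u y| ^ 2 ≤ C ^ 2 * t ^ 2 := by
    calc |u x - u y| ^ 2 ≤ (|C| * t) ^ 2 := pow_le_pow_left₀ (abs_nonneg _) h4 2
      _ = C ^ 2 * t ^ 2 := by rw [mul_pow, sq_abs]
  have h6 := MLA_sqrt t ht h1
  have h7 : 0 ≤ Real.log (Real.log (1 / t)) ^ 3 := pow_nonneg (MLA_pos t ht h1) 3
  calc |u x - u y| ^ 2 * Real.log (Real.log (1 / t)) ^ 3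
      ≤ C ^ 2 * t ^ 2 * Real.log (Real.log (1 / t)) ^ 3 := mul_le_mul_of_nonneg_right h5 h7
    _ = C ^ 2 * (t ^ 2 * Real.log (Real.log (1 / t)) ^ 3) := by ring
    _ ≤ C ^ 2 * (8 * √t) := mul_le_mul_of_nonneg_left h6 (sq_nonneg _)
    _ ≤ (C ^ 2 + 1) * (8 * √t) := by
        have := Real.sqrt_nonneg t
        nlinarith
    _ = K * √t := by rw [hK]; ring
    _ ≤ K * (e / K) := mul_le_mul_of_nonneg_left h3 hK0.le
    _ = e := by field_simp

/-- `|w| ≤ A (|a| + |b|)` with `a`, `b` small. -/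
theorem MLA_two (u v w : ℝ → ℝ) (A : ℝ) (hu : ML u) (hv : ML v)
    (h : ∀ x y, |w x - w y| ≤ A * (|u x - u y| + |v x - v y|)) : ML w := by
  intro e he
  have hK : 0 < 4 * (A ^ 2 + 1) := by positivity
  obtain ⟨t1, ht1, h1⟩ := hu (e / (4 * (A ^ 2 + 1))) (by positivity)
  obtain ⟨t2, ht2, h2⟩ := hv (e / (4 * (A ^ 2 + 1))) (by positivity)
  refine ⟨min (Real.exp (-3)) (min t1 t2), lt_min (Real.exp_pos _) (lt_min ht1 ht2), ?_⟩
  intro t ht ht0 x y hxy
  have g1 : t < Real.exp (-3) := lt_of_lt_of_le ht0 (min_le_left _ _)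
  have g2 : t < t1 := lt_of_lt_of_le ht0 ((min_le_right _ _).trans (min_le_left _ _))
  have g3 : t < t2 := lt_of_lt_of_le ht0 ((min_le_right _ _).trans (min_le_right _ _))
  have f1 := h1 t ht g2 x y hxy
  have f2 := h2 t ht g3 x y hxy
  set Λ : ℝ := Real.log (Real.log (1 / t)) ^ 3 with hΛ
  have hΛ0 : 0 ≤ Λ := pow_nonneg (MLA_pos t ht g1) 3
  have h3 : |w x - w y| ^ 2 ≤ 2 * A ^ 2 * (|u x - u y| ^ 2 + |v x - v y| ^ 2) := by
    calc |w x - w y| ^ 2 ≤ (A * (|u x - u y| + |v x - v y|)) ^ 2 := pow_le_pow_left₀ (abs_nonneg _) (h x y) 2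
      _ = A ^ 2 * (|u x - u y| + |v x - v y|) ^ 2 := by ring
      _ ≤ A ^ 2 * (2 * (|u x - u y| ^ 2 + |v x - v y| ^ 2)) := by
          apply mul_le_mul_of_nonneg_left _ (sq_nonneg A)
          nlinarith [sq_nonneg (|u x - u y| - |v x - v y|)]
      _ = 2 * A ^ 2 * (|u x - u y| ^ 2 + |v x - v y| ^ 2) := by ring
  calc |w x - w y| ^ 2 * Λ ≤ 2 * A ^ 2 * (|u x - u y| ^ 2 + |v x - v y| ^ 2) * Λ :=
        mul_le_mul_of_nonneg_right h3 hΛ0
    _ = 2 * A ^ 2 * (|u x - u y| ^ 2 * Λ + |v x - v y| ^ 2 * Λ) := by ring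
    _ ≤ 2 * A ^ 2 * (e / (4 * (A ^ 2 + 1)) + e / (4 * (A ^ 2 + 1))) := by
        apply mul_le_mul_of_nonneg_left _ (by positivity)
        exact add_le_add f1 f2
    _ = A ^ 2 / (A ^ 2 + 1) * e := by
        field_simp
        ring
    _ ≤ 1 * e := by
        apply mul_le_mul_of_nonneg_right _ he.le
        rw [div_le_one (by positivity)]
        linarith
    _ = e := one_mul e

theorem MLA_4 (u φ : ℝ → ℝ) (C : ℝ) (hu : ML u) (hφ : ∀ x y, |φ x - φ y| ≤ C * |x - y|) :
    ML (fun x => u (φ x)) := by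
  intro e he
  set K : ℝ := max C 1 with hK
  have hK1 : 1 ≤ K := le_max_right _ _
  have hK0 : 0 < K := by linarith
  set c : ℝ := Real.log K with hc
  have hc0 : 0 ≤ c := Real.log_nonneg hK1
  obtain ⟨t1, ht1, h1⟩ := hu (e / 8) (by positivity)
  refine ⟨min (Real.exp (-(2 * c + 3))) (t1 / K), lt_min (Real.exp_pos _) (by positivity), ?_⟩
  intro t ht ht0 x y hxy
  have g1 : t < Real.exp (-(2 * c + 3)) := lt_of_lt_of_le ht0 (min_le_left _ _)
  have g2 : t < t1 / K := lt_of_lt_of_le ht0 (min_le_right _ _)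
  have g3 : K * t < t1 := by
    rw [lt_div_iff₀ hK0] at g2
    linarith
  have hxy' : |φ x - φ y| ≤ K * t := by
    refine (hφ x y).trans ?_
    refine (mul_le_mul_of_nonneg_right (le_max_left C 1) (abs_nonneg _)).trans ?_
    exact mul_le_mul_of_nonneg_left hxy hK0.le
  have f1 := h1 (K * t) (by positivity) g3 (φ x) (φ y) hxy'
  have hL : 2 * c + 3 < Real.log (1 / t) := by
    have := Real.log_lt_log ht g1
    rw [Real.log_exp] at this
    rw [one_div, Real.log_inv]
    linarith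
  have hL' : Real.log (1 / (K * t)) = Real.log (1 / t) - c := by
    rw [one_div, Real.log_inv, Real.log_mul hK0.ne' ht.ne', one_div, Real.log_inv]
    ring
  have hLL : Real.log (Real.log (1 / t)) ≤ 2 * Real.log (Real.log (1 / (K * t))) := by
    rw [hL']
    have h5 : Real.log (1 / t) ≤ (Real.log (1 / t) - c) ^ 2 := by nlinarith
    have h6 : Real.log ((Real.log (1 / t) - c) ^ 2) = 2 * Real.log (Real.log (1 / t) - c) := by
      rw [Real.log_pow]
      norm_num
    rw [← h6]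
    exact Real.log_le_log (by linarith) h5
  have hLL0 : 0 ≤ Real.log (Real.log (1 / t)) := Real.log_nonneg (by linarith)
  have h7 : Real.log (Real.log (1 / t)) ^ 3 ≤ 8 * Real.log (Real.log (1 / (K * t))) ^ 3 := by
    calc Real.log (Real.log (1 / t)) ^ 3 ≤ (2 * Real.log (Real.log (1 / (K * t)))) ^ 3 :=
          pow_le_pow_left₀ hLL0 hLL 3
      _ = 8 * Real.log (Real.log (1 / (K * t))) ^ 3 := by ring
  show |u (φ x) - u (φ y)| ^ 2 * Real.log (Real.log (1 / t)) ^ 3 ≤ e
  calc |u (φ x) - u (φ y)| ^ 2 * Real.log (Real.log (1 / t)) ^ 3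
      ≤ |u (φ x) - u (φ y)| ^ 2 * (8 * Real.log (Real.log (1 / (K * t))) ^ 3) :=
        mul_le_mul_of_nonneg_left h7 (sq_nonneg _)
    _ = 8 * (|u (φ x) - u (φ y)| ^ 2 * Real.log (Real.log (1 / (K * t))) ^ 3) := by ring
    _ ≤ 8 * (e / 8) := by linarith
    _ = e := by ring

theorem MLA : MLA_stmt := by
  refine ⟨MLA_1, ?_, ?_, MLA_4⟩
  · intro u v hu hv
    refine MLA_two u v (fun x => u x + v x) 1 hu hv ?_
    intro x y
    show |u x + v x - (u y + v y)| ≤ _
    rw [show u x + v x - (u y + v y) = (u x - u y) + (v x - v y) by ring, one_mul]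
    exact abs_add_le _ _
  · intro u v A hu hv h

    refine MLA_two u v (fun x => u x * v x) A hu hv ?_
    intro x y
    show |u x * v x - u y * v y| ≤ _
    rw [show u x * v x - u y * v y = u x * (v x - v y) + v y * (u x - u y) by ring]
    refine (abs_add_le _ _).trans ?_
    rw [abs_mul, abs_mul]
    have h1 := mul_le_mul_of_nonneg_right (h x).1 (abs_nonneg (v x - v y))
    have h2 := mul_le_mul_of_nonneg_right (h y).2 (abs_nonneg (u x - u y))
    linarith

end Pool.Agent.helper64.D2
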